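import Pool.Agent.W645.WV.Stm

/-!
# The averaged Gaussian estimate integrated in `s`
-/

set_option autoImplicit false

open MeasureTheory Set Complex
open scoped ENNReal

namespace Pool.Agent.W947.WV

open Pool.Agent.W203.BE (T gn g1 ga al S_BAS S_BASN S_MEAS S_CORE)
open Pool.Agent.W645.WV

/-- the integral of the norm of the smoothing kernel is one -/
theorem gn_norm (hB : S_BAS) (hBN : S_BASN) (n : ℕ) (κ : ℝ) (hκ : 0 < κ) :
    ∫⁻ x : Fin n → ℝ, ‖gn (fun _ : Fin n => ((κ / 2 : ℝ) : ℂ)) x‖ₑ = 1 := by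
  have hre : 0 < (((κ / 2 : ℝ) : ℂ)).re := by
    rw [Complex.ofReal_re]
    positivity
  obtain ⟨h1, h2, h3, h4, -⟩ := hB ((κ / 2 : ℝ) : ℂ) hre
  have h5 := (hBN n (fun _ => ((κ / 2 : ℝ) : ℂ)) (fun _ => hre)).2.1
  rw [← ofReal_integral_norm_eq_lintegral_enorm h5]
  have h6 : ∫ x : ℝ, ‖g1 ((κ / 2 : ℝ) : ℂ) x‖ = 1 := by
    rw [integral_norm_eq_lintegral_enorm h2.aestronglyMeasurable, h4]
    have h7 : ‖((κ / 2 : ℝ) : ℂ)‖ / (((κ / 2 : ℝ) : ℂ)).re = 1 := by
      rw [Complex.norm_real, Real.norm_eq_abs, abs_of_pos (by positivity), Complex.ofReal_re]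
      exact div_self (by positivity)
    rw [h7, Real.sqrt_one, ENNReal.ofReal_one, ENNReal.toReal_one]
  have h8 : ∫ x : Fin n → ℝ, ‖gn (fun _ : Fin n => ((κ / 2 : ℝ) : ℂ)) x‖ = 1 := by
    have h9 : (fun x : Fin n → ℝ => ‖gn (fun _ : Fin n => ((κ / 2 : ℝ) : ℂ)) x‖) =
        fun x : Fin n → ℝ => ∏ j, (fun (_ : Fin n) (y : ℝ) => ‖g1 ((κ / 2 : ℝ) : ℂ) y‖) j (x j) := by
      funext x
      unfold gn
      rw [norm_prod]
    rw [h9, integral_fintype_prod_volume_eq_prod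
      (fun (_ : Fin n) (y : ℝ) => ‖g1 ((κ / 2 : ℝ) : ℂ) y‖)]
    simp only [h6, Finset.prod_const_one]
  rw [h8, ENNReal.ofReal_one]

theorem log_pow_le (n : ℕ) : ∃ C : ℝ, 0 < C ∧ ∀ y : ℝ, 1 ≤ y →
    (1 + Real.log y) ^ n ≤ C * y ^ (1 / 2 : ℝ) := by
  set ε : ℝ := 1 / (2 * ((n : ℝ) + 1)) with hε
  have hε0 : 0 < ε := by positivity
  refine ⟨(1 + 1 / ε) ^ n, by positivity, fun y hy => ?_⟩
  have hy0 : 0 < y := by linarith
  have h1 : Real.log y ≤ y ^ ε / ε := Real.log_le_rpow_div hy0.le hε0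
  have h2 : 1 ≤ y ^ ε := Real.one_le_rpow hy hε0.le
  have h3 : 1 + Real.log y ≤ (1 + 1 / ε) * y ^ ε := by
    have h4 : (1 + 1 / ε) * y ^ ε = y ^ ε + y ^ ε / ε := by ring
    rw [h4]
    linarith
  have h5 : 0 ≤ 1 + Real.log y := by
    have := Real.log_nonneg hy
    linarith
  calc (1 + Real.log y) ^ n ≤ ((1 + 1 / ε) * y ^ ε) ^ n := pow_le_pow_left₀ h5 h3 n
    _ = (1 + 1 / ε) ^ n * y ^ (ε * n) := by
        rw [mul_pow, ← Real.rpow_natCast (y ^ ε) n, ← Real.rpow_mul hy0.le]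
    _ ≤ (1 + 1 / ε) ^ n * y ^ (1 / 2 : ℝ) := by
        refine mul_le_mul_of_nonneg_left (Real.rpow_le_rpow_of_exponent_le hy ?_) (by positivity)
        rw [hε, one_div_mul_eq_div, div_le_div_iff₀ (by positivity) (by norm_num)]
        have : (0 : ℝ) ≤ n := Nat.cast_nonneg n
        linarith

/-- the integrand in the parameter -/
noncomputable def Gf (n : ℕ) (v : ℝ) : ℝ := (1 + v ^ 2)⁻¹ * (1 + Real.log (1 + |v|)) ^ n

theorem Gf_nonneg (n : ℕ) (v : ℝ) : 0 ≤ Gf n v := by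
  unfold Gf
  have h : 0 ≤ Real.log (1 + |v|) := Real.log_nonneg (by linarith [abs_nonneg v])
  positivity

theorem Gf_cont (n : ℕ) : Continuous (Gf n) := by
  unfold Gf
  refine Continuous.mul ?_ (Continuous.pow (continuous_const.add (Continuous.log ?_ ?_)) n)
  · exact Continuous.inv₀ (by fun_prop) (fun v => by positivity)
  · fun_prop
  · intro v
    have := abs_nonneg v
    positivity

theorem Gf_int (n : ℕ) : Integrable (Gf n) := by
  obtain ⟨C, hC, h⟩ := log_pow_le n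
  have h1 : Integrable (fun v : ℝ => 2 * C * (1 + ‖v‖) ^ (-(3 / 2) : ℝ)) :=
    (integrable_one_add_norm (by simp; norm_num)).const_mul (2 * C)
  refine h1.mono' (Gf_cont n).aestronglyMeasurable (Filter.Eventually.of_forall fun v => ?_)
  rw [Real.norm_eq_abs, abs_of_nonneg (Gf_nonneg n v), Real.norm_eq_abs]
  unfold Gf
  have hv := abs_nonneg v
  have hv1 : 0 < 1 + |v| := by positivity
  have h2 := h (1 + |v|) (by linarith)
  have h3 : (1 + v ^ 2)⁻¹ ≤ 2 * ((1 + |v|) ^ (2 : ℝ))⁻¹ := by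
    rw [Real.rpow_two, ← div_eq_mul_inv, inv_eq_one_div, div_le_div_iff₀ (by positivity)
      (by positivity)]
    have h4 : v ^ 2 = |v| ^ 2 := (sq_abs v).symm
    nlinarith [sq_nonneg (|v| - 1)]
  calc (1 + v ^ 2)⁻¹ * (1 + Real.log (1 + |v|)) ^ n
      ≤ (2 * ((1 + |v|) ^ (2 : ℝ))⁻¹) * (C * (1 + |v|) ^ (1 / 2 : ℝ)) := by
        refine mul_le_mul h3 h2 ?_ (by positivity)
        have : 0 ≤ Real.log (1 + |v|) := Real.log_nonneg (by linarith)
        positivity
    _ = 2 * C * (((1 + |v|) ^ (2 : ℝ))⁻¹ * (1 + |v|) ^ (1 / 2 : ℝ)) := by ring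
    _ = 2 * C * (1 + |v|) ^ (-(3 / 2) : ℝ) := by
        rw [← Real.rpow_neg hv1.le, ← Real.rpow_add hv1]
        norm_num

theorem log_bound (n : ℕ) (L : ℝ) (hL : 1 ≤ L) (s : ℝ) :
    (1 + (s / L) ^ 2)⁻¹ * (1 + Real.log (1 + |s|)) ^ n ≤
      (1 + Real.log L) ^ n * Gf n (s / L) := by
  have hL0 : 0 < L := by linarith
  unfold Gf
  rw [mul_left_comm]
  refine mul_le_mul_of_nonneg_left ?_ (by positivity)
  rw [← mul_pow]
  have hs := abs_nonneg s
  have hsL := abs_nonneg (s / L)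
  have hl1 : 0 ≤ Real.log (1 + |s|) := Real.log_nonneg (by linarith)
  refine pow_le_pow_left₀ (by positivity) ?_ n
  have h1 : 1 + |s| ≤ L * (1 + |s / L|) := by
    have h2 : L * |s / L| = |s| := by
      rw [abs_div, abs_of_pos hL0]
      field_simp
    rw [mul_add, h2]
    linarith
  have h2 : Real.log (1 + |s|) ≤ Real.log L + Real.log (1 + |s / L|) := by
    rw [← Real.log_mul (by positivity) (by positivity)]
    exact Real.log_le_log (by positivity) h1
  have h3 : 0 ≤ Real.log L := Real.log_nonneg hL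
  have h4 : 0 ≤ Real.log (1 + |s / L|) := Real.log_nonneg (by linarith)
  have h5 := mul_nonneg h3 h4
  nlinarith

theorem avg : S_BAS → S_BASN → S_MEAS → S_CORE → S_HB → S_YNG → S_AVG := by
  intro hB hBN _ hC hHB hY n p hp2 hp4
  obtain ⟨C, hC0, hcore⟩ := hC n p hp2 hp4
  set I0 : ℝ := ∫ v, Gf n v with hI0
  have hI0' : 0 ≤ I0 := integral_nonneg (Gf_nonneg n)
  refine ⟨C + C * I0, by positivity, fun κ hκ f hfm hfi => ?_⟩
  have hre : 0 < (((κ / 2 : ℝ) : ℂ)).re := by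
    rw [Complex.ofReal_re]
    positivity
  obtain ⟨g1', g2', g3', -, g4'⟩ := hBN n (fun _ => ((κ / 2 : ℝ) : ℂ)) (fun _ => hre)
  obtain ⟨-, k1, k2, -, k3⟩ := g4' f hfi
  -- the first bound with the constant of the core
  have main : ∀ s : ℝ, ∫⁻ a in box n, ∫⁻ x, ‖T (fun j => ga κ (a j) s) f x‖ₑ ^ p ≤
      ENNReal.ofReal (C * (1 + Real.log (1 + |s|)) ^ n) * ∫⁻ x, ‖f x‖ₑ ^ p := by
    intro s
    have h1 : ∫⁻ a in box n, ∫⁻ x, ‖T (fun j => ga κ (a j) s) f x‖ₑ ^ p =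
        ∫⁻ a in box n, ∫⁻ x, ‖T (fun j => al κ (a j) s)
          (T (fun _ => ((κ / 2 : ℝ) : ℂ)) f) x‖ₑ ^ p := by
      refine setLIntegral_congr_fun measurableSet_Icc fun a ha => ?_
      refine lintegral_congr fun x => ?_
      rw [k3 (fun j => al κ (a j) s) (fun j => ?_) x]
      · congr 4
        funext j
        unfold ga al
        apply Complex.ext
        · simp
          ring
        · simp
      · have h2 : (1 : ℝ) ≤ a j := ha.1 j
        unfold al
        simp only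
        have : 0 < a j - 1 / 2 := by linarith
        positivity
    rw [h1]
    refine (hcore κ hκ s _ k1.measurable k2).trans ?_
    refine mul_le_mul_right ?_ _
    have h3 := hY n (gn (fun _ => ((κ / 2 : ℝ) : ℂ))) f g1'.measurable hfm p (by linarith)
    rw [gn_norm hB hBN n κ hκ, ENNReal.one_rpow, one_mul] at h3
    exact h3
  refine ⟨fun s => (main s).trans ?_, fun L hL => ?_⟩
  · refine mul_le_mul_left (ENNReal.ofReal_le_ofReal ?_) _
    have h1 : 0 ≤ Real.log (1 + |s|) := Real.log_nonneg (by linarith [abs_nonneg s])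
    refine mul_le_mul_of_nonneg_right ?_ (by positivity)
    have := mul_nonneg hC0.le hI0'
    linarith
  · have hL0 : 0 < L := by linarith
    have hlogL : 0 ≤ Real.log L := Real.log_nonneg hL
    obtain ⟨hm, -⟩ := hHB n κ hκ f hfm hfi
    have hm' : Measurable (fun q : ((Fin n → ℝ) × ℝ) × (Fin n → ℝ) =>
        ENNReal.ofReal ((1 + (q.1.2 / L) ^ 2)⁻¹) *
          ‖T (fun j => ga κ (q.1.1 j) q.1.2) f q.2‖ₑ ^ p) := by
      refine Measurable.mul ?_ (hm.enorm.pow_const p)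
      fun_prop
    have e1 : ∫⁻ a in box n, ∫⁻ x, ∫⁻ s : ℝ, ENNReal.ofReal ((1 + (s / L) ^ 2)⁻¹) *
          ‖T (fun j => ga κ (a j) s) f x‖ₑ ^ p =
        ∫⁻ a in box n, ∫⁻ s : ℝ, ∫⁻ x, ENNReal.ofReal ((1 + (s / L) ^ 2)⁻¹) *
          ‖T (fun j => ga κ (a j) s) f x‖ₑ ^ p := by
      refine lintegral_congr fun a => ?_
      refine lintegral_lintegral_swap ?_
      refine Measurable.aemeasurable ?_
      exact hm'.comp (g := fun q : ((Fin n → ℝ) × ℝ) × (Fin n → ℝ) =>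
        ENNReal.ofReal ((1 + (q.1.2 / L) ^ 2)⁻¹) *
          ‖T (fun j => ga κ (q.1.1 j) q.1.2) f q.2‖ₑ ^ p)
        (f := fun z : (Fin n → ℝ) × ℝ => ((a, z.2), z.1)) (by fun_prop)
    have e2 : ∫⁻ a in box n, ∫⁻ s : ℝ, ∫⁻ x, ENNReal.ofReal ((1 + (s / L) ^ 2)⁻¹) *
          ‖T (fun j => ga κ (a j) s) f x‖ₑ ^ p =
        ∫⁻ s : ℝ, ∫⁻ a in box n, ∫⁻ x, ENNReal.ofReal ((1 + (s / L) ^ 2)⁻¹) *
          ‖T (fun j => ga κ (a j) s) f x‖ₑ ^ p := by
      refine lintegral_lintegral_swap ?_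
      refine Measurable.aemeasurable ?_
      exact hm'.lintegral_prod_right'
    rw [e1, e2]
    have e3 : ∀ s : ℝ, ∫⁻ a in box n, ∫⁻ x, ENNReal.ofReal ((1 + (s / L) ^ 2)⁻¹) *
          ‖T (fun j => ga κ (a j) s) f x‖ₑ ^ p =
        ENNReal.ofReal ((1 + (s / L) ^ 2)⁻¹) *
          ∫⁻ a in box n, ∫⁻ x, ‖T (fun j => ga κ (a j) s) f x‖ₑ ^ p := by
      intro s
      rw [← lintegral_const_mul' _ _ ENNReal.ofReal_ne_top]
      refine lintegral_congr fun a => ?_
      rw [← lintegral_const_mul' _ _ ENNReal.ofReal_ne_top]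
    calc ∫⁻ s : ℝ, ∫⁻ a in box n, ∫⁻ x, ENNReal.ofReal ((1 + (s / L) ^ 2)⁻¹) *
          ‖T (fun j => ga κ (a j) s) f x‖ₑ ^ p
        ≤ ∫⁻ s : ℝ, ENNReal.ofReal (C * (1 + Real.log L) ^ n * Gf n (s / L)) *
            ∫⁻ x, ‖f x‖ₑ ^ p := by
          refine lintegral_mono fun s => ?_
          simp only
          rw [e3 s]
          refine (mul_le_mul_right (main s) _).trans ?_
          rw [← mul_assoc, ← ENNReal.ofReal_mul (by positivity)]
          refine mul_le_mul_left (ENNReal.ofReal_le_ofReal ?_) _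
          have h1 := mul_le_mul_of_nonneg_left (log_bound n L hL s) hC0.le
          calc (1 + (s / L) ^ 2)⁻¹ * (C * (1 + Real.log (1 + |s|)) ^ n)
              = C * ((1 + (s / L) ^ 2)⁻¹ * (1 + Real.log (1 + |s|)) ^ n) := by ring
            _ ≤ _ := h1
            _ = C * (1 + Real.log L) ^ n * Gf n (s / L) := by ring
      _ = (∫⁻ s : ℝ, ENNReal.ofReal (C * (1 + Real.log L) ^ n * Gf n (s / L))) *
            ∫⁻ x, ‖f x‖ₑ ^ p := by
          refine lintegral_mul_const _ ?_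
          have := (Gf_cont n).measurable
          fun_prop
      _ ≤ ENNReal.ofReal ((C + C * I0) * L * (1 + Real.log L) ^ n) * ∫⁻ x, ‖f x‖ₑ ^ p := by
          refine mul_le_mul_left ?_ _
          have h1 : Integrable (fun s : ℝ => C * (1 + Real.log L) ^ n * Gf n (s / L)) :=
            ((Gf_int n).comp_div hL0.ne').const_mul _
          rw [← ofReal_integral_eq_lintegral_ofReal h1 (Filter.Eventually.of_forall fun s => by
            have := Gf_nonneg n (s / L)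
            positivity)]
          refine ENNReal.ofReal_le_ofReal ?_
          rw [integral_const_mul, Measure.integral_comp_div, abs_of_pos hL0, smul_eq_mul, ← hI0]
          have h2 : 0 ≤ C * L * (1 + Real.log L) ^ n := by positivity
          have h3 : (C + C * I0) * L * (1 + Real.log L) ^ n =
            C * L * (1 + Real.log L) ^ n + C * (1 + Real.log L) ^ n * (L * I0) := by ring
          rw [h3]
          linarith

end Pool.Agent.W947.WV
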